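import Pool.Agent.L7h34.UM.SweM

/-!
# The sweep: the program
-/

set_option autoImplicit false

namespace Pool.Agent.L7h34.UM

open Pool.Agent.L7h11.UM

theorem ht_loopF {N W : ℕ} {a b : Ex} {c : Cm} {s : S} {Q : S → Prop} (ha : a.ok N W s)
    (hb : b.ok N W s) (h : ¬ a.ev s < b.ev s) (hQ : Q s) : Ht N W (.loop a b c) s 1 Q :=
  ⟨s, 1, .loopF ha hb h, le_rfl, hQ⟩

theorem ht_loopT {N W : ℕ} {a b : Ex} {c : Cm} {s : S} {T₁ T₂ : ℕ} {Q : S → Prop}
    (ha : a.ok N W s) (hb : b.ok N W s) (h : a.ev s < b.ev s)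
    (h1 : Ht N W c s T₁ (fun s' => Ht N W (.loop a b c) s' T₂ Q)) :
    Ht N W (.loop a b c) s (T₁ + T₂ + 1) Q := by
  obtain ⟨s', t, h2, h3, s'', t', h4, h5, h6⟩ := h1
  exact ⟨s'', t + t' + 1, .loopT ha hb h h2 h4, by omega, h6⟩

@[simp] theorem setV_var (s : S) (x k y : ℕ) : (s.setV x k).var y = if y = x then k else s.var y := by
  simp [S.setV, Function.update_apply]

@[simp] theorem setV_arr (s : S) (x k : ℕ) : (s.setV x k).arr = s.arr := rfl

@[simp] theorem putA_var (s : S) (q i k : ℕ) : (s.putA q i k).var = s.var := rfl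

theorem putA_arr (s : S) (q i k q' : ℕ) :
    (s.putA q i k).arr q' = if q' = q then Function.update (s.arr q) i k else s.arr q' := by
  simp only [S.putA, Function.update_apply]

/-- the worth of the value `x` -/
def mE (a T x : ℕ) (ci : Ex) : Ex :=
  .ifLt (.get (10 + 3 * x + a) ci) (.get (20 + 10 * T + 3 * x + a) ci)
    (.get (20 + 10 * T + 3 * x + a) ci) (.get (10 + 3 * x + a) ci)

/-- `4 t` -/
def t4 : Ex := .add (.add (.v 1) (.v 1)) (.add (.v 1) (.v 1))

def sc0 : Ex := .ifLt (.c 0) (.v 14) (.add (.add (.v 14) (.v 14)) (.add (.v 10) (.v 10))) (.c 0)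
def sc1 : Ex := .ifLt (.c 0) (.v 15) (.add (.add (.add (.v 15) (.v 15)) t4) (.v 10)) (.c 0)
def sc2 : Ex := .ifLt (.c 0) (.v 16) (.add (.add (.add (.v 16) (.v 16)) t4) t4) (.c 0)

/-- the new base choice -/
def nE : Ex := .ifLt sc0 sc1 (.ifLt sc1 sc2 (.c 2) (.c 1)) (.ifLt sc0 sc2 (.c 2) (.c 0))

/-- number of children of `var 13`, plus two -/
def kE : Ex := .add (.sub (.sub (.get 0 (.add (.v 13) (.c 1))) (.get 0 (.v 13)))
  (.ifLt (.c 0) (.v 13) (.c 1) (.c 0))) (.c 2)

/-- treatment of one vertex of a bucket -/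
def bodyC (a T q : ℕ) : Cm :=
  .seq (.set 12 (.sub (.v 12) (.c 1)))
  (.seq (.set 13 (.get 2 (.v 12)))
  (.seq (.set 14 (mE a T 0 (.v 12)))
  (.seq (.set 15 (mE a T 1 (.v 12)))
  (.seq (.set 16 (mE a T 2 (.v 12)))
  (.seq (.set 17 nE)
  (.seq (.set 18 kE)
  (.seq (.ite (.v 18) (.get (50 + 2 * a + T) (.v 13))
        (.seq (.put (50 + 2 * a + T) (.v 13) (.sub (.get (50 + 2 * a + T) (.v 13))
            (.sub (.get (40 + 2 * a + T) (.v 12)) (.v 17))))
          (.put (40 + 2 * a + T) (.v 12) (.v 17)))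
        .skip)
      (.set 12 (.get (63 + q) (.v 12)))))))))) 

/-- treatment of one bucket -/
def buck (a T q : ℕ) : Cm :=
  .seq (.set 12 (.get (60 + q) (.v 10))) (.loop (.c 0) (.v 12) (bodyC a T q))

/-- bound for the rounds -/
def bnd (T : ℕ) : Ex := if T = 0 then t4 else .add (.add t4 t4) (.c 1)

/-- the sweep -/
def swe (a T : ℕ) : Cm :=
  .seq (.set 10 (.c 0))
  (.loop (.v 10) (bnd T)
    (.seq (buck a T 0) (.seq (buck a T 1) (.seq (buck a T 2) (.set 10 (.add (.v 10) (.c 1)))))))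

/-- The frame inside the sweep. -/
structure Fr (a T κ : ℕ) (s0 s : S) : Prop where
  v : ∀ x < 10, s.var x = s0.var x
  k : s.var 10 = κ
  arr : ∀ q, q ≠ 40 + 2 * a + T → q ≠ 50 + 2 * a + T → s.arr q = s0.arr q

section

variable {n : ℕ} {I ord par : ℕ → ℕ} {a T j κ W : ℕ}

theorem I_le (D : Dat n I ord par) : ∀ v ≤ n, I v ≤ 3 * n - 1 := by
  have : ∀ k ≤ n, I (n - k) ≤ 3 * n - 1 := by
    intro k
    induction k with
    | zero => intro _; rw [Nat.sub_zero, D.last]
    | succ k ih =>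
      intro hk
      have h1 := ih (by omega)
      have h2 := D.mono (n - (k + 1)) (by omega)
      rw [show n - (k + 1) + 1 = n - k by omega] at h2
      omega
  intro v hv
  have := this (n - v) (by omega)
  rwa [show n - (n - v) = v by omega] at this

theorem chain_le {nx : ℕ → ℕ} {h : ℕ} {l : List ℕ} (hc : Chain nx h l) (hl : ∀ c ∈ l, c < n) :
    h ≤ n := by
  cases l with
  | nil => unfold Chain at hc; omega
  | cons c l =>
    have := hl c (by simp)
    have := hc.1
    omega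

theorem nE_ev (s : S) : nE.ev s = newv (s.var 14) (s.var 15) (s.var 16) (s.var 1) (s.var 10) := rfl

theorem nE_ok {N : ℕ} (s : S) (h1 : s.var 14 + s.var 14 + (s.var 10 + s.var 10) < W)
    (h2 : s.var 15 + s.var 15 + (s.var 1 + s.var 1 + (s.var 1 + s.var 1)) + s.var 10 < W)
    (h3 : s.var 16 + s.var 16 + (s.var 1 + s.var 1 + (s.var 1 + s.var 1)) +
      (s.var 1 + s.var 1 + (s.var 1 + s.var 1)) < W) (h4 : 2 < W) : nE.ok N W s := by
  have k0 : sc0.ok N W s := by
    simp only [sc0, Ex.ok, Ex.ev]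
    exact ⟨by omega, by omega, fun _ => ⟨⟨by omega, by omega, by omega⟩, ⟨by omega, by omega,
      by omega⟩, h1⟩, fun _ => by omega⟩
  have k1 : sc1.ok N W s := by
    simp only [sc1, t4, Ex.ok, Ex.ev]
    refine ⟨by omega, by omega, fun _ => ⟨⟨⟨by omega, by omega, by omega⟩, ⟨⟨by omega, by omega,
      by omega⟩, ⟨by omega, by omega, by omega⟩, by omega⟩, by omega⟩, by omega, h2⟩, fun _ => by omega⟩
  have k2 : sc2.ok N W s := by
    simp only [sc2, t4, Ex.ok, Ex.ev]
    refine ⟨by omega, by omega, fun _ => ⟨⟨⟨by omega, by omega, by omega⟩, ⟨⟨by omega, by omega,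
      by omega⟩, ⟨by omega, by omega, by omega⟩, by omega⟩, by omega⟩, ⟨⟨by omega, by omega,
      by omega⟩, ⟨by omega, by omega, by omega⟩, by omega⟩, h3⟩, fun _ => by omega⟩
  unfold nE
  refine ⟨k0, k1, fun _ => ⟨k1, k2, fun _ => ?_, fun _ => ?_⟩, fun _ => ⟨k0, k2, fun _ => ?_,
    fun _ => ?_⟩⟩ <;> (show _ < W) <;> omega

theorem inner (hS : S_SIZ) (hB : S_BRK) (ha : a ≤ 2) (hT : T ≤ 1) {q : ℕ} (hq : q < 3) (s0 : S)
    (D : Dat n I ord par) (hW : 100 * (n + 1) ≤ W) (hc : Ctx n I ord par s0) (hj : 2 ^ j ≤ n)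
    (h1 : s0.var 1 = 2 ^ j) (hTab : ∀ v < n, sz n par v < 2 ^ j → TabOK n par s0 v)
    (hκ : κ ≤ 8 * 2 ^ j) (hκ' : T = 0 → κ < 4 * 2 ^ j) :
    ∀ (l : List ℕ) (P : ℕ → Prop) (s : S), (∀ c ∈ l, LightC n par j c) →
      Chain (s0.arr (63 + q)) (s.var 12) l → Fr a T κ s0 s →
      Inv n I ord par a T j κ P (s.arr (40 + 2 * a + T)) (s.arr (50 + 2 * a + T)) →
      Ht (64 * (n + 1)) W (.loop (.c 0) (.v 12) (bodyC a T q)) s (l.length * 12 + 1)
        (fun s' => Fr a T κ s0 s' ∧ Inv n I ord par a T j κ (fun c => P c ∨ c ∈ l)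
          (s'.arr (40 + 2 * a + T)) (s'.arr (50 + 2 * a + T))) := by
  intro l
  induction l with
  | nil =>
    intro P s _ hch hF hI
    have h0 : s.var 12 = 0 := hch
    have : (fun s' : S => Fr a T κ s0 s' ∧ Inv n I ord par a T j κ (fun c => P c ∨ c ∈ ([] : List ℕ))
        (s'.arr (40 + 2 * a + T)) (s'.arr (50 + 2 * a + T))) s := by
      refine ⟨hF, ?_⟩
      have : (fun c => P c ∨ c ∈ ([] : List ℕ)) = P := by funext c; simp
      rw [this]; exact hI
    refine (ht_loopF ?_ ?_ ?_ this).mono (by simp) (fun _ h => h)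
    · show 0 < W; omega
    · show s.var 12 < W; omega
    · show ¬ (0 < s.var 12); omega
  | cons c l ih =>
    intro P s hl hch hF hI
    have hcL := hl c (by simp)
    have hcn : c < n := hcL.1
    obtain ⟨hpc, hcc⟩ := light_cls D hcL
    have hpn : par c < n := hcL.2.1
    have hv12 : s.var 12 = c + 1 := hch.1
    have hrest : Chain (s0.arr (63 + q)) (s0.arr (63 + q) c) l := hch.2
    have hsz : sz n par c < 2 ^ j := hcL.2.2.2.2
    have hTc := hTab c hcn hsz
    have hv1 : s.var 1 = 2 ^ j := by rw [hF.v 1 (by omega), h1]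
    have hnext : s0.arr (63 + q) c ≤ n := chain_le hrest fun d hd => (hl d (by simp [hd])).1
    have hstep := hI.step hB hS D hκ' hcL
    -- the tables
    have hM : ∀ x ≤ 2, max (s.arr (10 + 3 * x + a) c) (s.arr (20 + 10 * T + 3 * x + a) c) =
        MM n par a T c x := by
      intro x hx
      rw [hF.arr _ (by omega) (by omega), hF.arr _ (by omega) (by omega)]
      unfold MM
      have h := hTc x hx a ha
      rw [h.1]
      congr 1
      rcases Nat.eq_zero_or_pos T with h0 | h0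
      · subst h0
        rw [← h.2.1]
      · have : T = 1 := by omega
        subst this
        rw [← h.2.2]
    have hMle : ∀ x, MM n par a T c x ≤ 2 * n := by
      intro x
      have := MM_le (a := a) (T := T) hS D hcn x
      omega
    have hP10 : ∀ x ≤ 2, s.arr (10 + 3 * x + a) c ≤ 2 * n ∧ s.arr (20 + 10 * T + 3 * x + a) c ≤ 2 * n := by
      intro x hx
      have h2 := hM x hx
      have h3 := hMle x
      exact ⟨(le_max_left _ _).trans (h2.le.trans h3), (le_max_right _ _).trans (h2.le.trans h3)⟩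
    have harr2 : s.arr 2 = par := by rw [hF.arr 2 (by omega) (by omega), hc.a2]
    have harr0 : s.arr 0 = I := by rw [hF.arr 0 (by omega) (by omega), hc.a0]
    have harrq : s.arr (63 + q) = s0.arr (63 + q) := hF.arr _ (by omega) (by omega)
    have hmE_ok : ∀ x ≤ 2, ∀ s' : S, s'.var 12 = c → s'.arr = s.arr →
        (mE a T x (.v 12)).ok (64 * (n + 1)) W s' := by
      intro x hx s' h12 harr
      have := hP10 x hx
      simp only [mE, Ex.ok, Ex.ev, h12, harr]
      refine ⟨⟨?_, ?_, ?_, ?_⟩, ⟨?_, ?_, ?_, ?_⟩, fun _ => ⟨?_, ?_, ?_, ?_⟩, fun _ => ⟨?_, ?_, ?_, ?_⟩⟩ <;>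
        omega
    have hmE_ev : ∀ x ≤ 2, ∀ s' : S, s'.var 12 = c → s'.arr = s.arr →
        (mE a T x (.v 12)).ev s' = MM n par a T c x := by
      intro x hx s' h12 harr
      rw [← hM x hx]
      simp only [mE, Ex.ev, h12, harr]
      split_ifs with h
      · rw [max_eq_right h.le]
      · rw [max_eq_left (not_lt.1 h)]
    -- the state after the assignments
    set s1 := s.setV 12 c with hs1
    set s2 := s1.setV 13 (par c) with hs2
    set s3 := s2.setV 14 (MM n par a T c 0) with hs3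
    set s4 := s3.setV 15 (MM n par a T c 1) with hs4
    set s5 := s4.setV 16 (MM n par a T c 2) with hs5
    set z := am (MM n par a T c) ((κ : ℤ) - 4 * (2 ^ j : ℕ)) with hz
    set s6 := s5.setV 17 z with hs6
    set K := (chl I par (par c)).length + 2 with hK
    set s7 := s6.setV 18 K with hs7
    have hz2 : z ≤ 2 := am_le _ _
    have hKn : K ≤ n + 2 := by
      have : (chl I par (par c)).length ≤ n := by
        have h2 : (chl I par (par c)).toFinset ⊆ Finset.range n := by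
          intro d hd
          exact Finset.mem_range.2 ((D.mem _ hpn d).1 (List.mem_toFinset.1 hd)).1
        have h3 := Finset.card_le_card h2
        rwa [List.toFinset_card_of_nodup (D.nodup _ hpn), Finset.card_range] at h3
      omega
    have hYle : s.arr (50 + 2 * a + T) (par c) ≤ 2 * n := by
      rw [hI.sum _ hpc]
      have h2 : ((chl I par (par c)).map (s.arr (40 + 2 * a + T))).sum ≤
          (chl I par (par c)).length * 2 := by
        have := List.sum_le_card_nsmul ((chl I par (par c)).map (s.arr (40 + 2 * a + T))) 2 (by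
          intro x hx
          obtain ⟨d, hd, rfl⟩ := List.mem_map.1 hx
          exact hI.le2 _ hpc d hd)
        simpa using this
      omega
    have hyle : s.arr (40 + 2 * a + T) c ≤ 2 := hI.le2 _ hpc c hcc
    -- the loop
    refine (ht_loopT (T₁ := 11) (T₂ := l.length * 12 + 1) ?_ ?_ ?_ ?_).mono
      (by simp only [List.length_cons]; omega) (fun _ h => h)
    · show 0 < W; omega
    · show s.var 12 < W; omega
    · show 0 < s.var 12; omega
    have hfin : ∀ s' : S, s'.var 12 = s0.arr (63 + q) c → Fr a T κ s0 s' →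
        Inv n I ord par a T j κ (fun d => P d ∨ d = c) (s'.arr (40 + 2 * a + T))
          (s'.arr (50 + 2 * a + T)) →
        Ht (64 * (n + 1)) W (.loop (.c 0) (.v 12) (bodyC a T q)) s' (l.length * 12 + 1)
          (fun s' => Fr a T κ s0 s' ∧ Inv n I ord par a T j κ (fun d => P d ∨ d ∈ c :: l)
            (s'.arr (40 + 2 * a + T)) (s'.arr (50 + 2 * a + T))) := by
      intro s' h12 hF' hI'
      refine (ih _ s' (fun d hd => hl d (by simp [hd])) (by rw [h12]; exact hrest) hF' hI').mono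
        le_rfl ?_
      rintro s'' ⟨g1, g2⟩
      refine ⟨g1, ?_⟩
      have : (fun d => (P d ∨ d = c) ∨ d ∈ l) = (fun d => P d ∨ d ∈ c :: l) := by
        funext d; simp [or_assoc]
      rwa [this] at g2
    have v1_12 : s1.var 12 = c := by simp [hs1]
    have v2_12 : s2.var 12 = c := by simp [hs2, hs1]
    have v3_12 : s3.var 12 = c := by simp [hs3, hs2, hs1]
    have v4_12 : s4.var 12 = c := by simp [hs4, hs3, hs2, hs1]
    have v5_14 : s5.var 14 = MM n par a T c 0 := by simp [hs5, hs4, hs3]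
    have v5_15 : s5.var 15 = MM n par a T c 1 := by simp [hs5, hs4]
    have v5_16 : s5.var 16 = MM n par a T c 2 := by simp [hs5]
    have v5_1 : s5.var 1 = 2 ^ j := by simp [hs5, hs4, hs3, hs2, hs1, hv1]
    have v5_10 : s5.var 10 = κ := by simp [hs5, hs4, hs3, hs2, hs1, hF.k]
    have v6_13 : s6.var 13 = par c := by simp [hs6, hs5, hs4, hs3, hs2]
    have v7_12 : s7.var 12 = c := by simp [hs7, hs6, hs5, hs4, hs3, hs2, hs1]
    have v7_13 : s7.var 13 = par c := by simp [hs7, hs6, hs5, hs4, hs3, hs2]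
    have v7_17 : s7.var 17 = z := by simp [hs7, hs6]
    have v7_18 : s7.var 18 = K := by simp [hs7]
    have v7_lt : ∀ x < 10, s7.var x = s0.var x := by
      intro x hx
      rw [← hF.v x hx]
      simp only [hs7, hs6, hs5, hs4, hs3, hs2, hs1, setV_var]
      split_ifs <;> first | omega | rfl
    have v7_10 : s7.var 10 = κ := by
      rw [← hF.k]
      simp [hs7, hs6, hs5, hs4, hs3, hs2, hs1]
    have a7 : s7.arr = s.arr := rfl
    unfold bodyC
    refine Ht.seq (T₁ := 1) (T₂ := 10) (Ht.set ?_ ?_)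
    · show s.var 12 < W ∧ 1 < W
      constructor <;> omega
    have e1 : (Ex.sub (.v 12) (.c 1)).ev s = c := by show s.var 12 - 1 = c; omega
    rw [e1, ← hs1]
    refine Ht.seq (T₁ := 1) (T₂ := 9) (Ht.set ?_ ?_)
    · show s1.var 12 < W ∧ s1.var 12 < 64 * (n + 1) ∧ s1.var 12 < W ∧ s1.arr 2 (s1.var 12) < W
      rw [v1_12, show s1.arr = s.arr from rfl, harr2]
      refine ⟨?_, ?_, ?_, ?_⟩ <;> omega
    have e2 : (Ex.get 2 (.v 12)).ev s1 = par c := by
      show s1.arr 2 (s1.var 12) = par c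
      rw [v1_12, show s1.arr = s.arr from rfl, harr2]
    rw [e2, ← hs2]
    refine Ht.seq (T₁ := 1) (T₂ := 8) (Ht.set (hmE_ok 0 (by omega) s2 v2_12 rfl) ?_)
    rw [hmE_ev 0 (by omega) s2 v2_12 rfl, ← hs3]
    refine Ht.seq (T₁ := 1) (T₂ := 7) (Ht.set (hmE_ok 1 (by omega) s3 v3_12 rfl) ?_)
    rw [hmE_ev 1 (by omega) s3 v3_12 rfl, ← hs4]
    refine Ht.seq (T₁ := 1) (T₂ := 6) (Ht.set (hmE_ok 2 (by omega) s4 v4_12 rfl) ?_)
    rw [hmE_ev 2 (by omega) s4 v4_12 rfl, ← hs5]
    refine Ht.seq (T₁ := 1) (T₂ := 5) (Ht.set ?_ ?_)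
    · have g0 := hMle 0
      have g1 := hMle 1
      have g2 := hMle 2
      apply nE_ok
      · rw [v5_14, v5_10]; omega
      · rw [v5_15, v5_1, v5_10]; omega
      · rw [v5_16, v5_1]; omega
      · omega
    have e6 : nE.ev s5 = z := by
      rw [nE_ev, v5_14, v5_15, v5_16, v5_1, v5_10, newv_eq (MM n par a T c)]
    rw [e6, ← hs6]
    have hI1 := I_le D (par c) (by omega)
    have hI2 := I_le D (par c + 1) (by omega)
    refine Ht.seq (T₁ := 1) (T₂ := 4) (Ht.set ?_ ?_)
    · simp only [kE, Ex.ok, Ex.ev, v6_13, show s6.arr = s.arr from rfl, harr0]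
      refine ⟨⟨⟨⟨⟨?_, ?_, ?_⟩, ?_, ?_, ?_⟩, ?_, ?_, ?_, ?_⟩, ?_, ?_, fun _ => ?_, fun _ => ?_⟩, ?_, ?_⟩
      all_goals first | omega | (split_ifs <;> omega)
    have e7 : kE.ev s6 = K := by
      simp only [kE, Ex.ev, v6_13, show s6.arr = s.arr from rfl, harr0]
      rw [hK, D.len _ hpn]
    rw [e7, ← hs7]
    refine Ht.seq (T₁ := 3) (T₂ := 1) ?_
    have hlast : ∀ s' : S, s'.var 12 = c → (∀ x < 10, s'.var x = s0.var x) → s'.var 10 = κ →
        (∀ q', q' ≠ 40 + 2 * a + T → q' ≠ 50 + 2 * a + T → s'.arr q' = s0.arr q') →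
        Inv n I ord par a T j κ (fun d => P d ∨ d = c) (s'.arr (40 + 2 * a + T))
          (s'.arr (50 + 2 * a + T)) →
        Ht (64 * (n + 1)) W (.set 12 (.get (63 + q) (.v 12))) s' 1 (fun s' =>
          Ht (64 * (n + 1)) W (.loop (.c 0) (.v 12) (bodyC a T q)) s' (l.length * 12 + 1)
          (fun s' => Fr a T κ s0 s' ∧ Inv n I ord par a T j κ (fun d => P d ∨ d ∈ c :: l)
            (s'.arr (40 + 2 * a + T)) (s'.arr (50 + 2 * a + T)))) := by
      intro s' g12 gv g10 ga gI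
      have gq : s'.arr (63 + q) = s0.arr (63 + q) := ga _ (by omega) (by omega)
      refine Ht.set ?_ (hfin _ ?_ ⟨?_, ?_, ?_⟩ ?_)
      · show s'.var 12 < W ∧ s'.var 12 < 64 * (n + 1) ∧ s'.var 12 < W ∧ s'.arr (63 + q) (s'.var 12) < W
        rw [g12, gq]
        refine ⟨?_, ?_, ?_, ?_⟩ <;> omega
      · simp only [setV_var, if_true]
        show s'.arr (63 + q) (s'.var 12) = _
        rw [g12, gq]
      · intro x hx
        rw [setV_var, if_neg (by omega), gv x hx]
      · rw [setV_var, if_neg (by omega), g10]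
      · exact ga
      · exact gI
    refine Ht.ite (T := 2) ?_ ?_ ?_ ?_
    · show s7.var 18 < W
      rw [v7_18]; omega
    · show s7.var 13 < W ∧ s7.var 13 < 64 * (n + 1) ∧ s7.var 13 < W ∧
        s7.arr (50 + 2 * a + T) (s7.var 13) < W
      rw [v7_13, a7]
      refine ⟨?_, ?_, ?_, ?_⟩ <;> omega
    · intro hlt
      have hlt' : K < s.arr (50 + 2 * a + T) (par c) := by
        have h2 : s7.var 18 < s7.arr (50 + 2 * a + T) (s7.var 13) := hlt
        rwa [v7_18, v7_13, a7] at h2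
      rw [if_pos hlt'] at hstep
      obtain ⟨hzy, hInv⟩ := hstep
      set Y' := s.arr (50 + 2 * a + T) (par c) - (s.arr (40 + 2 * a + T) c - z) with hY'
      refine Ht.seq (T₁ := 1) (T₂ := 1) (Ht.put ?_ ?_ ?_ ?_ ?_ ?_)
      · show s7.var 13 < W
        rw [v7_13]; omega
      · show s7.var 13 < 64 * (n + 1)
        rw [v7_13]; omega
      · show s7.var 13 < W
        rw [v7_13]; omega
      · simp only [Ex.ok, Ex.ev, v7_13, v7_12, v7_17, a7]
        refine ⟨⟨?_, ?_, ?_, ?_⟩, ⟨?_, ?_, ?_, ?_⟩, ?_⟩ <;> omega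
      · simp only [Ex.ev, v7_13, v7_12, v7_17, a7]
        omega
      have e8 : (Ex.sub (.get (50 + 2 * a + T) (.v 13))
          (.sub (.get (40 + 2 * a + T) (.v 12)) (.v 17))).ev s7 = Y' := by
        simp only [Ex.ev, v7_13, v7_12, v7_17, a7]
        rfl
      have e9 : (Ex.v 13).ev s7 = par c := v7_13
      rw [e8, e9]
      set s8 := s7.putA (50 + 2 * a + T) (par c) Y' with hs8
      have v8 : s8.var = s7.var := rfl
      refine Ht.put ?_ ?_ ?_ ?_ ?_ ?_
      · show s8.var 12 < W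
        rw [v8, v7_12]; omega
      · show s8.var 12 < 64 * (n + 1)
        rw [v8, v7_12]; omega
      · show s8.var 12 < W
        rw [v8, v7_12]; omega
      · show s8.var 17 < W
        rw [v8, v7_17]; omega
      · show s8.var 17 < W
        rw [v8, v7_17]; omega
      have e10 : (Ex.v 12).ev s8 = c := v7_12
      have e11 : (Ex.v 17).ev s8 = z := v7_17
      rw [e10, e11]
      refine hlast _ v7_12 v7_lt v7_10 ?_ ?_
      · intro q' hq1 hq2
        rw [putA_arr, if_neg hq1, hs8, putA_arr, if_neg hq2, a7]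
        exact hF.arr q' hq1 hq2
      · have ea : (s8.putA (40 + 2 * a + T) c z).arr (40 + 2 * a + T) =
            Function.update (s.arr (40 + 2 * a + T)) c z := by
          rw [putA_arr, if_pos rfl, hs8, putA_arr, if_neg (by omega), a7]
        have eb : (s8.putA (40 + 2 * a + T) c z).arr (50 + 2 * a + T) =
            Function.update (s.arr (50 + 2 * a + T)) (par c) Y' := by
          rw [putA_arr, if_neg (by omega), hs8, putA_arr, if_pos rfl, a7]
        rw [ea, eb]
        exact hInv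
    · intro hlt
      have hlt' : ¬ K < s.arr (50 + 2 * a + T) (par c) := by
        intro h2
        apply hlt
        show s7.var 18 < s7.arr (50 + 2 * a + T) (s7.var 13)
        rwa [v7_18, v7_13, a7]
      rw [if_neg hlt'] at hstep
      refine (Ht.skip ?_).mono (Nat.zero_le _) (fun _ h => h)
      exact hlast s7 v7_12 v7_lt v7_10 (fun q' h1 h2 => hF.arr q' h1 h2) hstep

theorem bucket (hS : S_SIZ) (hB : S_BRK) (ha : a ≤ 2) (hT : T ≤ 1) {q : ℕ} (hq : q < 3) (s0 : S)
    (D : Dat n I ord par) (hW : 100 * (n + 1) ≤ W) (hc : Ctx n I ord par s0) (hj : 2 ^ j ≤ n)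
    (h1 : s0.var 1 = 2 ^ j) (hTab : ∀ v < n, sz n par v < 2 ^ j → TabOK n par s0 v)
    (hκ : κ ≤ 8 * 2 ^ j) (hκ' : T = 0 → κ < 4 * 2 ^ j)
    (l : List ℕ) (P : ℕ → Prop) (s : S) (hl : ∀ c ∈ l, LightC n par j c)
    (hch : Chain (s0.arr (63 + q)) (s0.arr (60 + q) κ) l) (hF : Fr a T κ s0 s)
    (hI : Inv n I ord par a T j κ P (s.arr (40 + 2 * a + T)) (s.arr (50 + 2 * a + T))) :
    Ht (64 * (n + 1)) W (buck a T q) s (l.length * 12 + 2)
      (fun s' => Fr a T κ s0 s' ∧ Inv n I ord par a T j κ (fun c => P c ∨ c ∈ l)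
        (s'.arr (40 + 2 * a + T)) (s'.arr (50 + 2 * a + T))) := by
  have hle : s0.arr (60 + q) κ ≤ n := chain_le hch fun c hc => (hl c hc).1
  have ha60 : s.arr (60 + q) = s0.arr (60 + q) := hF.arr _ (by omega) (by omega)
  unfold buck
  refine (Ht.seq (T₁ := 1) (T₂ := l.length * 12 + 1) (Ht.set ?_ ?_)).mono (by omega) (fun _ h => h)
  · show s.var 10 < W ∧ s.var 10 < 64 * (n + 1) ∧ s.var 10 < W ∧ s.arr (60 + q) (s.var 10) < W
    rw [hF.k, ha60]
    refine ⟨?_, ?_, ?_, ?_⟩ <;> omega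
  have e : (Ex.get (60 + q) (.v 10)).ev s = s0.arr (60 + q) κ := by
    show s.arr (60 + q) (s.var 10) = _
    rw [hF.k, ha60]
  rw [e]
  refine inner hS hB ha hT hq s0 D hW hc hj h1 hTab hκ hκ' l P _ hl ?_ ⟨?_, ?_, hF.arr⟩ hI
  · rw [setV_var, if_pos rfl]; exact hch
  · intro x hx
    rw [setV_var, if_neg (by omega), hF.v x hx]
  · rw [setV_var, if_neg (by omega), hF.k]

theorem bnd_ev (hT : T ≤ 1) (s : S) (h1 : s.var 1 = 2 ^ j) :
    (bnd T).ev s = if T = 0 then 4 * 2 ^ j else 8 * 2 ^ j + 1 := by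
  unfold bnd
  rcases Nat.eq_zero_or_pos T with h | h
  · rw [if_pos h, if_pos h]
    simp only [t4, Ex.ev, h1]; omega
  · rw [if_neg (by omega), if_neg (by omega)]
    simp only [t4, Ex.ev, h1]; omega

theorem bnd_ok {N : ℕ} (s : S) (h1 : 8 * s.var 1 + 1 < W) : (bnd T).ok N W s := by
  have h4 : t4.ok N W s := by
    simp only [t4, Ex.ok, Ex.ev]
    refine ⟨⟨?_, ?_, ?_⟩, ⟨?_, ?_, ?_⟩, ?_⟩ <;> omega
  unfold bnd
  split_ifs
  · exact h4
  · refine ⟨⟨h4, h4, ?_⟩, ?_, ?_⟩
    · simp only [t4, Ex.ev]; omega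
    · show 1 < W; omega
    · simp only [t4, Ex.ev]; omega

end

theorem s_SWE : S_SIZ → S_BRK → S_SWE := by
  intro hS hB a ha T hT
  refine ⟨swe a T, 100, ?_⟩
  intro n I ord par W j s0 D hW hc hj h1 _ hTab hIni
  have hbk := hIni.bk
  choose! l hl using hbk
  set K : ℕ := if T = 0 then 4 * 2 ^ j else 8 * 2 ^ j + 1 with hK
  have hKle : K ≤ 8 * 2 ^ j + 1 := by rw [hK]; split_ifs <;> omega
  have hlight : ∀ q < 3, ∀ κ ≤ 8 * 2 ^ j, ∀ c ∈ l q κ, LightC n par j c :=
    fun q hq κ hκ c hc => ((hl q hq κ hκ).2.2 c).1 hc |>.1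
  set TT : ℕ → ℕ := fun κ =>
    ((l 0 κ).length * 12 + 2) + (((l 1 κ).length * 12 + 2) + (((l 2 κ).length * 12 + 2) + 1)) with hTT
  set II : ℕ → S → Prop := fun κ s => Fr a T κ s0 s ∧
    Inv n I ord par a T j κ (fun _ => False) (s.arr (40 + 2 * a + T)) (s.arr (50 + 2 * a + T)) with hII
  have hloop : ∀ s : S, II 0 s → Ht (64 * (n + 1)) W (.loop (.v 10) (bnd T)
      (.seq (buck a T 0) (.seq (buck a T 1) (.seq (buck a T 2) (.set 10 (.add (.v 10) (.c 1)))))))
      s (∑ k ∈ Finset.range K, (TT k + 1) + 1)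
      (fun s' => Frame a T s0 s' ∧ ∀ v ∈ clsL n ord par j, BaseOK n I par a T s' v) := by
    intro s hs
    refine Ht.loop K II TT ?_ ?_ hs
    · rintro κ hκ s ⟨hF, hI⟩
      have hκ1 : κ ≤ 8 * 2 ^ j := by omega
      have hκ2 : T = 0 → κ < 4 * 2 ^ j := by
        intro h; rw [hK, if_pos h] at hκ; exact hκ
      have hv1 : s.var 1 = 2 ^ j := by rw [hF.v 1 (by omega), h1]
      refine ⟨?_, bnd_ok s (by rw [hv1]; omega), ?_, ?_⟩
      · show s.var 10 < W
        rw [hF.k]; omega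
      · rw [bnd_ev hT s hv1]
        show s.var 10 < _
        rw [hF.k]; exact hκ
      refine Ht.seq ?_
      refine (bucket hS hB ha hT (by omega : 0 < 3) s0 D hW hc hj h1 hTab hκ1 hκ2 (l 0 κ) _ s
        (hlight 0 (by omega) κ hκ1) (hl 0 (by omega) κ hκ1).1 hF hI).mono le_rfl ?_
      rintro s ⟨hF, hI⟩
      refine Ht.seq ?_
      refine (bucket hS hB ha hT (by omega : 1 < 3) s0 D hW hc hj h1 hTab hκ1 hκ2 (l 1 κ) _ s
        (hlight 1 (by omega) κ hκ1) (hl 1 (by omega) κ hκ1).1 hF hI).mono le_rfl ?_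
      rintro s ⟨hF, hI⟩
      refine Ht.seq ?_
      refine (bucket hS hB ha hT (by omega : 2 < 3) s0 D hW hc hj h1 hTab hκ1 hκ2 (l 2 κ) _ s
        (hlight 2 (by omega) κ hκ1) (hl 2 (by omega) κ hκ1).1 hF hI).mono le_rfl ?_
      rintro s ⟨hF, hI⟩
      refine Ht.set ?_ ?_
      · show s.var 10 < W ∧ 1 < W ∧ s.var 10 + 1 < W
        rw [hF.k]
        refine ⟨?_, ?_, ?_⟩ <;> omega
      · have e : (Ex.add (.v 10) (.c 1)).ev s = κ + 1 := by
          show s.var 10 + 1 = _
          rw [hF.k]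
        rw [e]
        refine ⟨⟨?_, ?_, hF.arr⟩, ?_⟩
        · intro x hx
          rw [setV_var, if_neg (by omega), hF.v x hx]
        · rw [setV_var, if_pos rfl]
        · refine hI.next hB D ?_
          intro c hc q hq hk
          have hm := ((hl q hq κ hκ1).2.2 c).2 ⟨hc, hk⟩
          interval_cases q
          · exact Or.inl (Or.inl (Or.inr hm))
          · exact Or.inl (Or.inr hm)
          · exact Or.inr hm
    · rintro s ⟨hF, hI⟩
      have hv1 : s.var 1 = 2 ^ j := by rw [hF.v 1 (by omega), h1]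
      refine ⟨?_, bnd_ok s (by rw [hv1]; omega), ?_, ?_⟩
      · show s.var 10 < W
        rw [hF.k]; omega
      · rw [bnd_ev hT s hv1]
        show ¬ s.var 10 < _
        rw [hF.k]; exact lt_irrefl _
      · exact ⟨⟨hF.v, fun q hq1 hq2 _ => hF.arr q hq1 hq2⟩, hI.fin hB hS D hT⟩
  have htime : 1 + (∑ k ∈ Finset.range K, (TT k + 1) + 1) ≤ 100 * work n I ord par j := by
    have c0 := count (a := a) (T := T) D 0 K (l 0) (fun κ hκ => (hl 0 (by omega) κ (by omega)).2)
    have c1 := count (a := a) (T := T) D 1 K (l 1) (fun κ hκ => (hl 1 (by omega) κ (by omega)).2)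
    have c2 := count (a := a) (T := T) D 2 K (l 2) (fun κ hκ => (hl 2 (by omega) κ (by omega)).2)
    have e : ∑ k ∈ Finset.range K, (TT k + 1) = (∑ k ∈ Finset.range K, (l 0 k).length) * 12 +
        (∑ k ∈ Finset.range K, (l 1 k).length) * 12 +
        (∑ k ∈ Finset.range K, (l 2 k).length) * 12 + K * 8 := by
      rw [Finset.sum_mul, Finset.sum_mul, Finset.sum_mul, ← Finset.sum_add_distrib,
        ← Finset.sum_add_distrib]
      have : K * 8 = ∑ k ∈ Finset.range K, 8 := by simp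
      rw [this, ← Finset.sum_add_distrib]
      refine Finset.sum_congr rfl fun k _ => ?_
      simp only [hTT]
      ring
    have h2 : 1 ≤ 2 ^ j := Nat.one_le_two_pow
    unfold work
    rw [e]
    omega
  unfold swe
  refine (Ht.seq (Ht.set ?_ (hloop _ ⟨⟨?_, ?_, ?_⟩, ?_⟩))).mono htime (fun _ h => h)
  · show 0 < W; omega
  · intro x hx
    rw [setV_var, if_neg (by omega)]
  · rw [setV_var, if_pos rfl]; rfl
  · intro q _ _; rfl
  · exact Inv.start hB hS D s0 hIni

end Pool.Agent.L7h34.UM
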