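import Pool.Agent.L7h11.UM.Stm

/-!
# The sweep: the mathematics of the invariants
-/

set_option autoImplicit false

namespace Pool.Agent.L7h34.UM

open Pool.Agent.L7h11.UM

theorem am_le (m : ℕ → ℕ) (μ : ℤ) : am m μ ≤ 2 := by
  unfold am; split_ifs <;> omega

theorem am_zero {m : ℕ → ℕ} (h : ¬ ∃ x ≤ 2, m x ≠ 0) (μ : ℤ) : am m μ = 0 := by
  push Not at h
  unfold am
  simp [h 0 (by omega), h 1 (by omega), h 2 (by omega)]

theorem am_anti (hB : S_BRK) (m : ℕ → ℕ) (μ : ℤ) : am m μ ≤ am m (μ - 1) := by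
  by_cases h : ∃ x ≤ 2, m x ≠ 0
  · exact (hB m h).2.2.1 μ
  · rw [am_zero h]; omega

theorem am_step (hB : S_BRK) (m : ℕ → ℕ) (t κ : ℕ) (h : ∀ q < 3, ¬ KeyAt m q t κ) :
    am m ((κ : ℤ) - 4 * t) = am m ((κ : ℤ) - 4 * t - 1) := by
  by_cases hm : ∃ x ≤ 2, m x ≠ 0
  · by_contra hne
    have h0 := h 0 (by omega)
    have h1 := h 1 (by omega)
    have h2 := h 2 (by omega)
    unfold KeyAt at h0 h1 h2
    rcases (hB m hm).2.2.2.1 _ hne with ⟨g1, g2, g3⟩ | ⟨g1, g2, g3⟩ | ⟨g1, g2, g3⟩
    · apply h0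
      left
      exact ⟨rfl, g1, g2, by omega⟩
    · apply h1
      right; left
      exact ⟨rfl, g1, g2, by omega⟩
    · apply h2
      right; right
      exact ⟨rfl, g1, g2, by omega⟩
  · rw [am_zero hm, am_zero hm]

/-- The scores. -/
def newv (m0 m1 m2 t κ : ℕ) : ℕ :=
  if (if 0 < m0 then m0 + m0 + (κ + κ) else 0) < (if 0 < m1 then m1 + m1 + (t + t + (t + t)) + κ else 0) then
    (if (if 0 < m1 then m1 + m1 + (t + t + (t + t)) + κ else 0) <
      (if 0 < m2 then m2 + m2 + (t + t + (t + t)) + (t + t + (t + t)) else 0) then 2 else 1)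
  else (if (if 0 < m0 then m0 + m0 + (κ + κ) else 0) <
      (if 0 < m2 then m2 + m2 + (t + t + (t + t)) + (t + t + (t + t)) else 0) then 2 else 0)

theorem newv_eq (m : ℕ → ℕ) (t κ : ℕ) :
    newv (m 0) (m 1) (m 2) t κ = am m ((κ : ℤ) - 4 * t) := by
  unfold newv am
  generalize m 0 = m0
  generalize m 1 = m1
  generalize m 2 = m2
  split_ifs <;> omega

/-- The invariant: the keys `< κ` are treated, and of the key `κ` the members of `P`. -/
structure Inv (n : ℕ) (I ord par : ℕ → ℕ) (a T j κ : ℕ) (P : ℕ → Prop) (y Y : ℕ → ℕ) : Prop where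
  heavy : ∀ v ∈ clsL n ord par j, ∀ c ∈ chl I par v, 2 ^ j ≤ sz n par c → y c = 1
  le2 : ∀ v ∈ clsL n ord par j, ∀ c ∈ chl I par v, y c ≤ 2
  sum : ∀ v ∈ clsL n ord par j, Y v = ((chl I par v).map y).sum
  alt : ∀ v ∈ clsL n ord par j,
    ((chl I par v).length + 3 ≤ Y v ∧ ∀ c ∈ chl I par v, sz n par c < 2 ^ j →
      (y c = am (MM n par a T c) ((κ : ℤ) - 4 * (2 ^ j : ℕ)) ∨
        (y c = am (MM n par a T c) ((κ : ℤ) - 4 * (2 ^ j : ℕ) - 1) ∧ ¬ P c))) ∨
    (Y v ≤ (chl I par v).length + 2 ∧ BaseProp T (MM n par a T) (chl I par v) y)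

section

variable {n : ℕ} {I ord par : ℕ → ℕ} {a T j κ : ℕ}

theorem mem_cls (h : Rooting n ord par) {v : ℕ} :
    v ∈ clsL n ord par j ↔ v < n ∧ 2 ^ j ≤ sz n par v ∧ sz n par v < 2 ^ (j + 1) := by
  unfold clsL
  rw [List.mem_filter]
  simp only [List.mem_map, List.mem_range, decide_eq_true_eq]
  constructor
  · rintro ⟨⟨i, hi, rfl⟩, h2⟩
    exact ⟨h.ord_lt _ (by omega), h2⟩
  · rintro ⟨hv, h2⟩
    refine ⟨?_, h2⟩
    -- `ord` is surjective on `range n`
    have hs : Function.Surjective (fun i : Fin n => (⟨ord i, h.ord_lt i i.2⟩ : Fin n)) := by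
      apply Finite.surjective_of_injective
      intro i i' hii
      have := h.ord_inj i i.2 i' i'.2 (by simpa using hii)
      exact Fin.ext this
    obtain ⟨i, hi⟩ := hs ⟨v, hv⟩
    have hi' : ord i = v := by simpa using hi
    refine ⟨n - 1 - i, by have := i.2; omega, ?_⟩
    have := i.2
    rw [show n - 1 - (n - 1 - (i : ℕ)) = i by omega]
    exact hi'

/-- There is at most one heavy child. -/
theorem exists_heavy (hS : S_SIZ) (D : Dat n I ord par) {v : ℕ} (hv : v ∈ clsL n ord par j) :
    ∃ h : ℕ, ∀ c ∈ chl I par v, c ≠ h → sz n par c < 2 ^ j := by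
  have hv' := (mem_cls D.root).1 hv
  by_cases hh : ∃ c ∈ chl I par v, 2 ^ j ≤ sz n par c
  · obtain ⟨h, hh1, hh2⟩ := hh
    refine ⟨h, fun c hc hne => ?_⟩
    by_contra hlt
    have hk : ∀ c, c ∈ chl I par v → c ∈ kids n par v := by
      intro c hc
      have := (D.mem v hv'.1 c).1 hc
      simp [kids, this]
    exact hne ((hS n ord par D.root).2.2.2.2.1 v hv'.1 j hv'.2.2 c (hk c hc) h (hk h hh1)
      (not_lt.1 hlt) hh2)
  · refine ⟨0, fun c hc _ => ?_⟩
    by_contra hlt
    exact hh ⟨c, hc, not_lt.1 hlt⟩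

theorem base_opt (hB : S_BRK) (hS : S_SIZ) (D : Dat n I ord par) {v : ℕ}
    (hv : v ∈ clsL n ord par j) {y : ℕ → ℕ} (le2 : ∀ c ∈ chl I par v, y c ≤ 2) (μ : ℤ)
    (hy : ∀ c ∈ chl I par v, sz n par c < 2 ^ j →
      y c = am (MM n par a T c) μ ∨ y c = am (MM n par a T c) (μ - 1))
    (hQ : (∃ h : ℕ, ∀ c ∈ chl I par v, c ≠ h → sz n par c < 2 ^ j) →
      (∀ c ∈ chl I par v, ∃ x ≤ 2, MM n par a T c x ≠ 0) → ∀ h : ℕ,
      (∀ c ∈ chl I par v, c ≠ h → sz n par c < 2 ^ j) →
      (((chl I par v).length + 1 ≤ ((chl I par v).map y).sum ∧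
        ((chl I par v).map y).sum ≤ (chl I par v).length + 2 ∧ (T = 0 → μ ≤ 0)) ∨
       (((chl I par v).map y).sum ≤ (chl I par v).length + 2 ∧ (T = 0 → μ ≤ 0) ∧
        ∀ c ∈ chl I par v, c ≠ h → ∀ x ≤ 2, MM n par a T c x ≠ 0 → x ≤ y c) ∨
       ((chl I par v).length + 3 ≤ ((chl I par v).map y).sum ∧ T = 0 ∧ μ = 0) ∨
       ((chl I par v).length + 3 ≤ ((chl I par v).map y).sum ∧ T = 1 ∧
        ∀ c ∈ chl I par v, c ≠ h → ∀ x ≤ 2, MM n par a T c x ≠ 0 → y c ≤ x))) :
    BaseProp T (MM n par a T) (chl I par v) y := by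
  refine ⟨le2, ?_⟩
  by_cases h0 : ∃ c ∈ chl I par v, ∀ x ≤ 2, MM n par a T c x = 0
  · exact Or.inl h0
  · right
    have h1 : ∀ c ∈ chl I par v, ∃ x ≤ 2, MM n par a T c x ≠ 0 := by
      intro c hc
      by_contra hcon
      push Not at hcon
      exact h0 ⟨c, hc, hcon⟩
    obtain ⟨h, hh⟩ := exists_heavy hS D hv
    refine ⟨h, μ, fun c hc hne => ?_, hQ ⟨h, hh⟩ h1 h hh⟩
    have hopt : IsOpt (MM n par a T c) μ (y c) := by
      rcases hy c hc (hh c hc hne) with g | g
      · rw [g]; exact ((hB _ (h1 c hc)).1 μ).1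
      · rw [g]; exact (hB _ (h1 c hc)).2.1 μ
    exact ⟨hopt.2.1, hopt.2.2⟩

theorem base_congr {M : ℕ → ℕ → ℕ} {cs : List ℕ} {y y' : ℕ → ℕ} (h : ∀ c ∈ cs, y' c = y c)
    (hb : BaseProp T M cs y) : BaseProp T M cs y' := by
  have hm : cs.map y' = cs.map y := List.map_congr_left h
  obtain ⟨h1, h2⟩ := hb
  refine ⟨fun c hc => by rw [h c hc]; exact h1 c hc, ?_⟩
  rcases h2 with h2 | ⟨h', μ, h3, h4⟩
  · exact Or.inl h2
  · right
    rw [hm]
    refine ⟨h', μ, fun c hc hne => by rw [h c hc]; exact h3 c hc hne, ?_⟩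
    rcases h4 with h4 | ⟨g1, g2, g3⟩ | h4 | ⟨g1, g2, g3⟩
    · exact Or.inl h4
    · exact Or.inr (Or.inl ⟨g1, g2, fun c hc hne => by rw [h c hc]; exact g3 c hc hne⟩)
    · exact Or.inr (Or.inr (Or.inl h4))
    · exact Or.inr (Or.inr (Or.inr ⟨g1, g2, fun c hc hne => by rw [h c hc]; exact g3 c hc hne⟩))

theorem light_cls (D : Dat n I ord par) {c : ℕ} (h : LightC n par j c) :
    par c ∈ clsL n ord par j ∧ c ∈ chl I par (par c) := by
  obtain ⟨h1, h2, h3, h4, h5⟩ := h
  exact ⟨(mem_cls D.root).2 ⟨h2, h3, h4⟩, (D.mem _ h2 c).2 ⟨h1, rfl⟩⟩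

theorem sum_update {l : List ℕ} (hl : l.Nodup) {c : ℕ} (hc : c ∈ l) (y : ℕ → ℕ) (z : ℕ) :
    (l.map (Function.update y c z)).sum + y c = (l.map y).sum + z := by
  induction l with
  | nil => simp at hc
  | cons d l ih =>
    rw [List.nodup_cons] at hl
    rcases List.mem_cons.1 hc with h | h
    · subst h
      have : l.map (Function.update y c z) = l.map y := by
        apply List.map_congr_left
        intro d hd
        rw [Function.update_of_ne]
        rintro rfl
        exact hl.1 hd
      simp [this]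
      omega
    · have h2 := ih hl.2 h
      have hne : d ≠ c := by rintro rfl; exact hl.1 h
      simp [Function.update_of_ne hne]
      omega

/-- One member of a bucket. -/
theorem Inv.step (hB : S_BRK) (hS : S_SIZ) (D : Dat n I ord par) (hκ : T = 0 → κ < 4 * 2 ^ j)
    {P : ℕ → Prop} {y Y : ℕ → ℕ} (h : Inv n I ord par a T j κ P y Y) {c : ℕ}
    (hc : LightC n par j c) :
    if (chl I par (par c)).length + 2 < Y (par c) then
      am (MM n par a T c) ((κ : ℤ) - 4 * (2 ^ j : ℕ)) ≤ y c ∧
      Inv n I ord par a T j κ (fun d => P d ∨ d = c)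
        (Function.update y c (am (MM n par a T c) ((κ : ℤ) - 4 * (2 ^ j : ℕ))))
        (Function.update Y (par c)
          (Y (par c) - (y c - am (MM n par a T c) ((κ : ℤ) - 4 * (2 ^ j : ℕ)))))
    else Inv n I ord par a T j κ (fun d => P d ∨ d = c) y Y := by
  obtain ⟨hpc, hcc⟩ := light_cls D hc
  have hclt : sz n par c < 2 ^ j := hc.2.2.2.2
  set μ : ℤ := (κ : ℤ) - 4 * (2 ^ j : ℕ) with hμ
  set z := am (MM n par a T c) μ with hz
  have hother : ∀ v ∈ clsL n ord par j, v ≠ par c → c ∉ chl I par v := by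
    intro v hv hne hcv
    have := (D.mem v ((mem_cls D.root).1 hv).1 c).1 hcv
    exact hne this.2.symm
  split_ifs with hif
  · have hact : ∀ d ∈ chl I par (par c), sz n par d < 2 ^ j → (y d = am (MM n par a T d) μ ∨
        (y d = am (MM n par a T d) (μ - 1) ∧ ¬ P d)) := by
      rcases h.alt _ hpc with g | g
      · exact g.2
      · omega
    have hzy : z ≤ y c := by
      rcases hact c hcc hclt with g | g
      · rw [g]
      · rw [g.1]; exact am_anti hB _ _
    refine ⟨hzy, ?_⟩
    have hle2' : ∀ v ∈ clsL n ord par j, ∀ d ∈ chl I par v, Function.update y c z d ≤ 2 := by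
      intro v hv d hd
      by_cases hdc : d = c
      · subst hdc; rw [Function.update_self]; exact am_le _ _
      · rw [Function.update_of_ne hdc]; exact h.le2 v hv d hd
    have hnd := D.nodup (par c) ((mem_cls D.root).1 hpc).1
    have hsum1 := sum_update hnd hcc y z
    have hsum0 := h.sum _ hpc
    have hyY : y c ≤ Y (par c) := by
      rw [hsum0]
      exact List.single_le_sum (by simp) _ (List.mem_map_of_mem hcc)
    have hsumc : Y (par c) - (y c - z) = ((chl I par (par c)).map (Function.update y c z)).sum := by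
      omega
    refine ⟨?_, hle2', ?_, ?_⟩
    · intro v hv d hd hsz
      have hdc : d ≠ c := by rintro rfl; omega
      rw [Function.update_of_ne hdc]
      exact h.heavy v hv d hd hsz
    · intro v hv
      by_cases hvc : v = par c
      · subst hvc
        rw [Function.update_self]
        exact hsumc
      · rw [Function.update_of_ne hvc, h.sum v hv]
        congr 1
        apply List.map_congr_left
        intro d hd
        rw [Function.update_of_ne]
        rintro rfl
        exact hother v hv hvc hd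
    · intro v hv
      by_cases hvc : v = par c
      · subst hvc
        rw [Function.update_self]
        have hact' : ∀ d ∈ chl I par (par c), sz n par d < 2 ^ j →
            (Function.update y c z d = am (MM n par a T d) μ ∨
            (Function.update y c z d = am (MM n par a T d) (μ - 1) ∧ ¬ (P d ∨ d = c))) := by
          intro d hd hsz
          by_cases hdc : d = c
          · subst hdc; left; rw [Function.update_self]
          · rw [Function.update_of_ne hdc]
            rcases hact d hd hsz with g | g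
            · exact Or.inl g
            · exact Or.inr ⟨g.1, by tauto⟩
        rcases Nat.lt_or_ge (Y (par c) - (y c - z)) ((chl I par (par c)).length + 3) with hlt | hge
        · right
          refine ⟨by omega, ?_⟩
          refine base_opt hB hS D hpc (hle2' _ hpc) μ (fun d hd hsz => ?_) (fun _ _ h' hh' => ?_)
          · rcases hact' d hd hsz with g | g
            · exact Or.inl g
            · exact Or.inr g.1
          · left
            have := h.le2 _ hpc c hcc
            refine ⟨by omega, by omega, fun hT => ?_⟩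
            have := hκ hT
            rw [hμ]
            omega
        · exact Or.inl ⟨hge, hact'⟩
      · rw [Function.update_of_ne hvc]
        have hcong : ∀ d ∈ chl I par v, Function.update y c z d = y d := by
          intro d hd
          rw [Function.update_of_ne]
          rintro rfl
          exact hother v hv hvc hd
        rcases h.alt v hv with g | g
        · left
          refine ⟨g.1, fun d hd hsz => ?_⟩
          rw [hcong d hd]
          rcases g.2 d hd hsz with g' | g'
          · exact Or.inl g'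
          · refine Or.inr ⟨g'.1, ?_⟩
            rintro (g'' | rfl)
            · exact g'.2 g''
            · exact hother v hv hvc hd
        · exact Or.inr ⟨g.1, base_congr hcong g.2⟩
  · refine ⟨h.heavy, h.le2, h.sum, ?_⟩
    intro v hv
    rcases h.alt v hv with g | g
    · left
      refine ⟨g.1, fun d hd hsz => ?_⟩
      rcases g.2 d hd hsz with g' | g'
      · exact Or.inl g'
      · refine Or.inr ⟨g'.1, ?_⟩
        rintro (g'' | rfl)
        · exact g'.2 g''
        · have hp := (D.mem v ((mem_cls D.root).1 hv).1 d).1 hd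
          rw [hp.2] at hif
          exact hif (by omega)
    · exact Or.inr g

theorem light_of (D : Dat n I ord par) {v c : ℕ} (hv : v ∈ clsL n ord par j) (hc : c ∈ chl I par v)
    (hsz : sz n par c < 2 ^ j) : LightC n par j c := by
  have h1 := (mem_cls D.root).1 hv
  have h2 := (D.mem v h1.1 c).1 hc
  unfold LightC
  rw [h2.2]
  exact ⟨h2.1, h1.1, h1.2.1, h1.2.2, hsz⟩

/-- End of a round. -/
theorem Inv.next (hB : S_BRK) (D : Dat n I ord par) {P : ℕ → Prop} {y Y : ℕ → ℕ}
    (h : Inv n I ord par a T j κ P y Y)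
    (hP : ∀ c, LightC n par j c → ∀ q < 3, KeyAt (MM n par a T c) q (2 ^ j) κ → P c) :
    Inv n I ord par a T j (κ + 1) (fun _ => False) y Y := by
  refine ⟨h.heavy, h.le2, h.sum, ?_⟩
  intro v hv
  rcases h.alt v hv with g | g
  · left
    refine ⟨g.1, fun d hd hsz => ?_⟩
    have e : (((κ + 1 : ℕ) : ℤ) - 4 * (2 ^ j : ℕ) - 1) = (κ : ℤ) - 4 * (2 ^ j : ℕ) := by
      push_cast; ring
    right
    rw [e]
    refine ⟨?_, fun h => h⟩
    rcases g.2 d hd hsz with g' | g'
    · exact g'
    · rw [g'.1]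
      exact (am_step hB _ _ _ fun q hq hk => g'.2 (hP d (light_of D hv hd hsz) q hq hk)).symm
  · exact Or.inr g

theorem MM_le (hS : S_SIZ) (D : Dat n I ord par) {c : ℕ} (hc : c < n) (x : ℕ) :
    MM n par a T c x ≤ 2 * sz n par c + 1 := by
  have h := hS n ord par D.root
  exact max_le (h.2.2.2.2.2.1 c hc x a) (h.2.2.2.2.2.2 c hc T x a)

/-- Beginning of the sweep. -/
theorem Inv.start (hB : S_BRK) (hS : S_SIZ) (D : Dat n I ord par) (s : S)
    (hI : Ini n I ord par a T j s) :
    Inv n I ord par a T j 0 (fun _ => False) (s.arr (40 + 2 * a + T)) (s.arr (50 + 2 * a + T)) := by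
  have e : (((0 : ℕ) : ℤ) - 4 * (2 ^ j : ℕ)) = (-(4 * 2 ^ j : ℕ) : ℤ) := by push_cast; ring
  have hy : ∀ v ∈ clsL n ord par j, ∀ c ∈ chl I par v, sz n par c < 2 ^ j →
      s.arr (40 + 2 * a + T) c = am (MM n par a T c) (-(4 * 2 ^ j : ℕ) : ℤ) :=
    fun v hv c hc hsz => hI.yl c (light_of D hv hc hsz)
  have hle : ∀ v ∈ clsL n ord par j, ∀ c ∈ chl I par v, s.arr (40 + 2 * a + T) c ≤ 2 := by
    intro v hv c hc
    rcases Nat.lt_or_ge (sz n par c) (2 ^ j) with h | h
    · rw [hy v hv c hc h]; exact am_le _ _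
    · rw [hI.yh v hv c hc h]; omega
  refine ⟨hI.yh, hle, hI.sum, ?_⟩
  intro v hv
  rcases Nat.lt_or_ge (s.arr (50 + 2 * a + T) v) ((chl I par v).length + 3) with hlt | hge
  · right
    refine ⟨by omega, ?_⟩
    refine base_opt hB hS D hv (hle v hv) (-(4 * 2 ^ j : ℕ) : ℤ)
      (fun c hc hsz => Or.inl (hy v hv c hc hsz)) fun _ h1 h' hh' => ?_
    right; left
    refine ⟨by rw [← hI.sum v hv]; omega, fun _ => by omega, fun c hc hne x hx hx0 => ?_⟩
    have hsz := hh' c hc hne
    rw [hy v hv c hc hsz]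
    have hcn : c < n := (light_of D hv hc hsz).1
    refine ((hB _ (h1 c hc)).2.2.2.2 (2 * (2 ^ j - 1)) (fun x _ => ?_) x hx hx0).1 _ ?_
    · have := MM_le (a := a) (T := T) hS D hcn x
      omega
    · have : 1 ≤ 2 ^ j := Nat.one_le_two_pow
      omega
  · left
    refine ⟨hge, fun c hc hsz => Or.inl ?_⟩
    rw [e]
    exact hy v hv c hc hsz

/-- End of the sweep. -/
theorem Inv.fin (hB : S_BRK) (hS : S_SIZ) (D : Dat n I ord par) (hT : T ≤ 1) {P : ℕ → Prop}
    {y Y : ℕ → ℕ} (h : Inv n I ord par a T j (if T = 0 then 4 * 2 ^ j else 8 * 2 ^ j + 1) P y Y) :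
    ∀ v ∈ clsL n ord par j, BaseProp T (MM n par a T) (chl I par v) y ∧
      Y v = ((chl I par v).map y).sum := by
  intro v hv
  refine ⟨?_, h.sum v hv⟩
  rcases h.alt v hv with g | g
  · refine base_opt hB hS D hv (h.le2 v hv)
      (((if T = 0 then 4 * 2 ^ j else 8 * 2 ^ j + 1 : ℕ) : ℤ) - 4 * (2 ^ j : ℕ))
      (fun c hc hsz => ?_) fun _ h1 h' hh' => ?_
    · rcases g.2 c hc hsz with g' | g'
      · exact Or.inl g'
      · exact Or.inr g'.1
    · right; right
      have hs := h.sum v hv
      rcases Nat.eq_zero_or_pos T with hT0 | hT0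
      · left
        refine ⟨by omega, hT0, ?_⟩
        rw [if_pos hT0]
        push_cast; ring
      · right
        refine ⟨by omega, by omega, fun c hc hne x hx hx0 => ?_⟩
        have hsz := hh' c hc hne
        have hcn : c < n := (light_of D hv hc hsz).1
        have hb := ((hB _ (h1 c hc)).2.2.2.2 (2 * (2 ^ j - 1)) (fun x _ => by
          have := MM_le (a := a) (T := T) hS D hcn x
          omega) x hx hx0).2
        have h1j : 1 ≤ 2 ^ j := Nat.one_le_two_pow
        rcases g.2 c hc hsz with g' | g'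
        · rw [g']
          apply hb
          rw [if_neg (by omega)]
          omega
        · rw [g'.1]
          apply hb
          rw [if_neg (by omega)]
          omega
  · exact g.2

theorem sum_toFinset_le (f : ℕ → ℕ) (l : List ℕ) : ∑ v ∈ l.toFinset, f v ≤ (l.map f).sum := by
  induction l with
  | nil => simp
  | cons c l ih =>
    rw [List.toFinset_cons, List.map_cons, List.sum_cons]
    calc ∑ v ∈ insert c l.toFinset, f v ≤ f c + ∑ v ∈ l.toFinset, f v := by
          by_cases hc : c ∈ l.toFinset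
          · rw [Finset.insert_eq_of_mem hc]; omega
          · rw [Finset.sum_insert hc]
      _ ≤ _ := by omega

/-- The total length of the buckets of a kind. -/
theorem count (D : Dat n I ord par) (q K : ℕ) (l : ℕ → List ℕ)
    (hl : ∀ κ < K, (l κ).Nodup ∧ ∀ c, c ∈ l κ ↔ LightC n par j c ∧
      KeyAt (MM n par a T c) q (2 ^ j) κ) :
    ∑ κ ∈ Finset.range K, (l κ).length ≤
      ((clsL n ord par j).map (fun v => (adjL I v).length + 1)).sum := by
  classical
  have h1 : ∑ κ ∈ Finset.range K, (l κ).length =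
      ((Finset.range K).biUnion fun κ => (l κ).toFinset).card := by
    rw [Finset.card_biUnion]
    · refine Finset.sum_congr rfl fun κ hκ => ?_
      rw [List.toFinset_card_of_nodup (hl κ (Finset.mem_range.1 hκ)).1]
    · intro κ hκ κ' hκ' hne
      rw [Function.onFun, Finset.disjoint_left]
      intro c hc hc'
      have g1 := ((hl κ (Finset.mem_range.1 (Finset.mem_coe.1 hκ))).2 c).1 (List.mem_toFinset.1 hc)
      have g2 := ((hl κ' (Finset.mem_range.1 (Finset.mem_coe.1 hκ'))).2 c).1
        (List.mem_toFinset.1 hc')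
      have g3 := g1.2
      have g4 := g2.2
      unfold KeyAt at g3 g4
      apply hne
      omega
  rw [h1]
  have h2 : ((Finset.range K).biUnion fun κ => (l κ).toFinset) ⊆
      (clsL n ord par j).toFinset.biUnion (fun v => (chl I par v).toFinset) := by
    intro c hc
    obtain ⟨κ, hκ, hc⟩ := Finset.mem_biUnion.1 hc
    have g1 := ((hl κ (Finset.mem_range.1 hκ)).2 c).1 (List.mem_toFinset.1 hc)
    have g2 := light_cls D g1.1
    exact Finset.mem_biUnion.2 ⟨par c, List.mem_toFinset.2 g2.1, List.mem_toFinset.2 g2.2⟩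
  calc _ ≤ _ := Finset.card_le_card h2
    _ ≤ ∑ v ∈ (clsL n ord par j).toFinset, ((chl I par v).toFinset).card := Finset.card_biUnion_le
    _ ≤ ∑ v ∈ (clsL n ord par j).toFinset, ((adjL I v).length + 1) := by
        refine Finset.sum_le_sum fun v _ => ?_
        refine (List.toFinset_card_le _).trans ?_
        unfold chl
        exact (List.length_filter_le _ _).trans (Nat.le_succ _)
    _ ≤ _ := sum_toFinset_le _ _

end

end Pool.Agent.L7h34.UM
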